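import Pool.Agent.helper33.TM.Sel

set_option autoImplicit false

namespace Pool.Agent.helper33.TM

open Set Topology Filter Cardinal
open Pool.Agent.helper90.TP (TotallyParacompact MengerSpace)

/-- The bounding number. -/
noncomputable def bNumber : Cardinal.{0} :=
  sInf {c | ∃ F : Set (ℕ → ℕ), #F = c ∧ ¬ ∃ g : ℕ → ℕ, ∀ f ∈ F, ∀ᶠ n in atTop, f n ≤ g n}

/-- Fewer than `bNumber` functions are bounded. -/
theorem bdd_of_lt (I : Type) (h : #I < bNumber) (F : I → ℕ → ℕ) :
    ∃ g : ℕ → ℕ, ∀ i, ∀ᶠ n in atTop, F i n ≤ g n := by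
  by_contra hcon
  have h1 : ¬ ∃ g : ℕ → ℕ, ∀ f ∈ range F, ∀ᶠ n in atTop, f n ≤ g n := by
    rintro ⟨g, hg⟩
    exact hcon ⟨g, fun i => hg _ (mem_range_self i)⟩
  have h2 : bNumber ≤ #(range F) := csInf_le' ⟨range F, rfl, h1⟩
  have h3 : #(range F) ≤ #I := mk_range_le
  exact absurd (h2.trans h3) (not_le.2 h)

/-- Cofinal families of countable subsets. -/
theorem cofinal_family (X : Type) (m : ℕ) : ∀ S : Set X, #S ≤ aleph (m : Ordinal.{0}) →
    ∃ Z : Set (Set X), #Z ≤ aleph (m : Ordinal.{0}) ∧ (∀ z ∈ Z, z.Countable) ∧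
      ∀ c ⊆ S, c.Countable → ∃ z ∈ Z, c ⊆ z := by
  induction m with
  | zero =>
    intro S hS
    have hS0 : #S ≤ ℵ₀ := by simpa using hS
    refine ⟨{S}, ?_, ?_, ?_⟩
    · rw [mk_singleton]
      exact one_le_aleph0.trans (aleph0_le_aleph _)
    · intro z hz
      rw [mem_singleton_iff.1 hz]
      exact le_aleph0_iff_set_countable.1 hS0
    · intro c hc _
      exact ⟨S, rfl, hc⟩
  | succ m ih =>
    intro S hS
    have hsucc : aleph ((m + 1 : ℕ) : Ordinal.{0}) = Order.succ (aleph (m : Ordinal.{0})) := by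
      rw [succ_aleph]
      congr 1
    by_cases h : #S ≤ aleph (m : Ordinal.{0})
    · obtain ⟨Z, h1, h2, h3⟩ := ih S h
      exact ⟨Z, h1.trans (by rw [hsucc]; exact Order.le_succ _), h2, h3⟩
    set κ : Cardinal.{0} := aleph ((m + 1 : ℕ) : Ordinal.{0}) with hκ
    have hSκ : #S = κ := by
      refine le_antisymm hS ?_
      rw [hsucc]
      exact Order.succ_le_of_lt (not_le.1 h)
    have hκ0 : ℵ₀ ≤ κ := aleph0_le_aleph _
    have hreg : κ.IsRegular := by
      rw [hsucc]
      exact isRegular_succ (aleph0_le_aleph _)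
    have hcard : #S = #κ.ord.ToType := by rw [hSκ, mk_ord_toType]
    obtain ⟨f⟩ := Cardinal.eq.1 hcard
    have hSa : ∀ a : κ.ord.ToType, #((fun t => (f.symm t : X)) '' Iio a : Set X) ≤ aleph (m : Ordinal.{0}) := by
      intro a
      refine mk_image_le.trans ?_
      have h1 : #(Iio a) < κ := mk_Iio_ord_toType a
      exact Order.lt_succ_iff.1 (h1.trans_eq hsucc)
    choose Z h1 h2 h3 using fun a => ih _ (hSa a)
    refine ⟨⋃ a, Z a, ?_, ?_, ?_⟩
    · refine (mk_iUnion_le Z).trans ?_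
      rw [mk_ord_toType]
      have h4 : (⨆ a, #(Z a)) ≤ κ := by
        refine ciSup_le' fun a => (h1 a).trans ?_
        rw [hsucc]
        exact Order.le_succ _
      calc κ * (⨆ a, #(Z a)) ≤ κ * κ := mul_le_mul' le_rfl h4
        _ = κ := mul_eq_self hκ0
    · intro z hz
      obtain ⟨a, ha⟩ := mem_iUnion.1 hz
      exact h2 a z ha
    · intro c hc hcc
      have hc' : ((fun t => (f.symm t : X)) ⁻¹' c).Countable :=
        hcc.preimage (Subtype.val_injective.comp f.symm.injective)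
      have hnc : ¬ IsCofinal ((fun t => (f.symm t : X)) ⁻¹' c) := by
        intro hcof
        have h5 := Order.cof_le hcof
        rw [Ordinal.cof_toType, hreg.cof_eq] at h5
        have h6 : #((fun t => (f.symm t : X)) ⁻¹' c : Set κ.ord.ToType) ≤ ℵ₀ :=
          le_aleph0_iff_set_countable.2 hc'
        have h7 : ℵ₀ < κ := by
          rw [hsucc]
          exact (aleph0_le_aleph _).trans_lt (Order.lt_succ _)
        exact absurd (h5.trans h6) (not_le.2 h7)
      have h8 : ∃ a : κ.ord.ToType, ∀ t ∈ (fun t => (f.symm t : X)) ⁻¹' c, t < a := by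
        by_contra hcon
        push Not at hcon
        exact hnc fun a => by
          obtain ⟨t, ht, hat⟩ := hcon a
          exact ⟨t, ht, hat⟩
      obtain ⟨a, ha⟩ := h8
      have h9 : c ⊆ (fun t => (f.symm t : X)) '' Iio a := by
        intro x hx
        refine ⟨f ⟨x, hc hx⟩, ha _ ?_, by simp⟩
        simpa using hx
      obtain ⟨z, hz, hcz⟩ := h3 a c h9 hcc
      exact ⟨z, mem_iUnion.2 ⟨a, hz⟩, hcz⟩

/-- Countably tight spaces. -/
theorem tight_case {X : Type} [TopologicalSpace X] (hX : TotallyParacompact X)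
    (Y : Set X) (hY : Dense Y) (hYL : IsLindelof Y) (hb : #Y < bNumber)
    (hw : ∃ m : ℕ, #Y ≤ aleph (m : Ordinal.{0}))
    (ht : ∀ (A : Set X) (x : X), x ∈ closure A → ∃ C : Set X, C ⊆ A ∧ C.Countable ∧ x ∈ closure C) :
    MengerSpace X := by
  classical
  have hm := Nat.find_spec hw
  rcases Nat.eq_zero_or_pos (Nat.find hw) with h0 | hpos
  · rw [h0] at hm
    have hYc : Y.Countable := le_aleph0_iff_set_countable.1 (by simpa using hm)
    rcases Y.eq_empty_or_nonempty with hemp | hne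
    · refine dense_sigmaCompact hX (fun _ => ∅) (fun _ => isCompact_empty) ?_
      rw [hemp] at hY
      simpa using hY
    · obtain ⟨z, hz⟩ := hYc.exists_eq_range hne
      refine dense_sigmaCompact hX (fun n => {z n}) (fun _ => isCompact_singleton) ?_
      have : (⋃ n, ({z n} : Set X)) = range z := by
        ext x
        simp [eq_comm]
      rw [this, ← hz]
      exact hY
  · obtain ⟨k, hk⟩ := Nat.exists_eq_succ_of_ne_zero hpos.ne'
    have hlt : ¬ #Y ≤ aleph (k : Ordinal.{0}) := Nat.find_min hw (by omega)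
    obtain ⟨Z, h1, h2, h3⟩ := cofinal_family X (Nat.find hw) Y hm
    have hle : aleph ((Nat.find hw : ℕ) : Ordinal.{0}) ≤ #Y := by
      rw [hk]
      have hsucc : aleph ((k.succ : ℕ) : Ordinal.{0}) = Order.succ (aleph (k : Ordinal.{0})) := by
        rw [succ_aleph]
        congr 1
      rw [hsucc]
      exact Order.succ_le_of_lt (not_le.1 hlt)
    have hZb : #Z < bNumber := (h1.trans hle).trans_lt hb
    refine few_closures hX Y hY hYL Z (fun z => (z : Set X)) (fun z => h2 z z.2) ?_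
      (bdd_of_lt Z hZb)
    refine eq_univ_of_univ_subset fun x _ => ?_
    obtain ⟨C, hCY, hCc, hxC⟩ := ht Y x (hY x)
    obtain ⟨z, hz, hCz⟩ := h3 C hCY hCc
    exact mem_iUnion.2 ⟨⟨z, hz⟩, closure_mono hCz hxC⟩

end Pool.Agent.helper33.TM
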