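import Pool.Agent.helper33.TM.Card

set_option autoImplicit false

namespace Pool.Agent.helper33.TM

open Set Topology Filter Cardinal
open Pool.Agent.helper90.TP (TotallyParacompact MengerSpace HurewiczSpace)

/-- `D` is covered infinitely often by finite selections from the covers of `X`. -/
def Good {X : Type} [TopologicalSpace X] (D : Set X) : Prop :=
  ∀ U : ℕ → Set (Set X), (∀ n, ∀ s ∈ U n, IsOpen s) → (∀ n, ⋃₀ U n = Set.univ) →
    ∃ A : ℕ → Set (Set X), (∀ n, A n ⊆ U n ∧ (A n).Finite) ∧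
      ∀ x ∈ D, ∀ m, ∃ n ≥ m, x ∈ ⋃₀ A n

theorem good_union {X : Type} [TopologicalSpace X] {D E : Set X} (hD : Good D) (hE : Good E) :
    Good (D ∪ E) := by
  intro U hU hc
  obtain ⟨A, hA, hA2⟩ := hD U hU hc
  obtain ⟨A', hA', hA2'⟩ := hE U hU hc
  refine ⟨fun n => A n ∪ A' n, fun n => ⟨union_subset (hA n).1 (hA' n).1, (hA n).2.union (hA' n).2⟩, ?_⟩
  intro x hx m
  rcases hx with hx | hx
  · obtain ⟨n, hn, s, hs, hxs⟩ := hA2 x hx m
    exact ⟨n, hn, s, Or.inl hs, hxs⟩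
  · obtain ⟨n, hn, s, hs, hxs⟩ := hA2' x hx m
    exact ⟨n, hn, s, Or.inr hs, hxs⟩

theorem good_hurewicz {X : Type} [TopologicalSpace X] {Y : Set X} (hY : HurewiczSpace Y) :
    Good Y := by
  classical
  intro U hU hc
  obtain ⟨A, hA, hA2⟩ := hY (fun n => (fun s : Set X => ((↑) : Y → X) ⁻¹' s) '' U n)
    (by
      rintro n s ⟨t, ht, rfl⟩
      exact (hU n t ht).preimage continuous_subtype_val)
    (by
      intro n
      refine eq_univ_of_univ_subset fun y _ => ?_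
      have : (y : X) ∈ ⋃₀ U n := by rw [hc n]; trivial
      obtain ⟨s, hs, hys⟩ := this
      exact ⟨_, ⟨s, hs, rfl⟩, hys⟩)
  have h : ∀ n, ∃ B : Set (Set X), B ⊆ U n ∧ B.Finite ∧
      (fun s : Set X => ((↑) : Y → X) ⁻¹' s) '' B = A n := by
    intro n
    obtain ⟨B, hB, hBf, hBA⟩ := exists_subset_image_finite_and.1 ⟨A n, (hA n).1, (hA n).2, rfl⟩
    exact ⟨B, hB, hBf, hBA.symm⟩
  choose B hB hBf hBA using h
  refine ⟨B, fun n => ⟨hB n, hBf n⟩, ?_⟩
  intro x hx m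
  have h1 := hA2 ⟨x, hx⟩
  obtain ⟨k, hk⟩ := eventually_atTop.1 h1
  refine ⟨max m k, le_max_left _ _, ?_⟩
  obtain ⟨s, hs, hxs⟩ := hk (max m k) (le_max_right _ _)
  rw [← hBA] at hs
  obtain ⟨t, ht, rfl⟩ := hs
  exact ⟨t, ht, hxs⟩

theorem good_few {X : Type} [TopologicalSpace X] (hX : TotallyParacompact X)
    (hL : ∀ U : Set (Set X), (∀ s ∈ U, IsOpen s) → ⋃₀ U = Set.univ →
      ∃ V : Set (Set X), V ⊆ U ∧ V.Countable ∧ ⋃₀ V = Set.univ)
    (I : Type) (Z : I → Set X) (hZ : ∀ i, (Z i).Countable)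
    (hb : ∀ F : I → ℕ → ℕ, ∃ g : ℕ → ℕ, ∀ i, ∀ᶠ n in atTop, F i n ≤ g n) :
    Good (⋃ i, closure (Z i)) := by
  classical
  intro U hU hc
  rcases isEmpty_or_nonempty X with hemp | ⟨⟨x0⟩⟩
  · exact ⟨fun _ => ∅, fun n => ⟨empty_subset _, finite_empty⟩, fun x => (hemp.false x).elim⟩
  have h1 : ∀ n, ∃ V : Set (Set X), V ⊆ U n ∧ V.Countable ∧ ⋃₀ V = Set.univ := fun n =>
    hL (U n) (hU n) (hc n)
  choose V hVU hVc hVcov using h1
  have h2 : ∀ n, ∃ e : ℕ → Set X, V n = range e := by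
    intro n
    refine (hVc n).exists_eq_range ?_
    have : x0 ∈ ⋃₀ V n := by rw [hVcov n]; trivial
    obtain ⟨s, hs, -⟩ := this
    exact ⟨s, hs⟩
  choose e he using h2
  have heU : ∀ n k, e n k ∈ U n := by
    intro n k
    apply hVU n
    rw [he n]
    exact mem_range_self k
  have hec : ∀ n, (⋃ k, e n k) = Set.univ := by
    intro n
    rw [← sUnion_range, ← he n]
    exact hVcov n
  have h3 : ∀ i, ∃ g : ℕ → ℕ, ∀ x ∈ closure (Z i), ∀ m, ∃ n ≥ m, ∃ k ≤ g n, x ∈ e n k := fun i =>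
    one_bound hX e (fun n k => hU n _ (heU n k)) hec (Z i) (hZ i)
  choose F hF using h3
  obtain ⟨g, hg⟩ := hb F
  refine ⟨fun n => e n '' Set.Iic (g n), fun n => ⟨?_, (finite_Iic _).image _⟩, ?_⟩
  · rintro s ⟨k, -, rfl⟩
    exact heU n k
  · intro x hx m0
    obtain ⟨i, hi⟩ := mem_iUnion.1 hx
    obtain ⟨m, hm⟩ := eventually_atTop.1 (hg i)
    obtain ⟨n, hn, k, hk, hxk⟩ := hF i x hi (max m m0)
    exact ⟨n, (le_max_right _ _).trans hn, e n k,
      ⟨k, hk.trans (hm n ((le_max_left _ _).trans hn)), rfl⟩, hxk⟩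

/-- If every nonempty G_delta set meets a good set, the space is Menger. -/
theorem menger_of_gdelta {X : Type} [TopologicalSpace X] (hX : TotallyParacompact X)
    (D : Set X) (hD : Good D) (hG : ∀ G : Set X, IsGδ G → G.Nonempty → (G ∩ D).Nonempty) :
    MengerSpace X := by
  classical
  intro U hU hc
  have h1 : ∀ n, ∃ C : Set (Set X), (∀ W ∈ C, IsOpen W ∧ ∃ u ∈ U n, W ⊆ u) ∧
      LocallyFinite (fun s : C => (s : Set X)) ∧ ⋃₀ C = Set.univ := by
    intro n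
    have hbase : TopologicalSpace.IsTopologicalBasis {W | IsOpen W ∧ ∃ u ∈ U n, W ⊆ u} := by
      refine TopologicalSpace.isTopologicalBasis_of_isOpen_of_nhds (fun u hu => hu.1) ?_
      intro a O ha hO
      have h2 : a ∈ ⋃₀ U n := by rw [hc n]; trivial
      obtain ⟨u, hu, hau⟩ := h2
      exact ⟨O ∩ u, ⟨hO.inter (hU n u hu), u, hu, inter_subset_right⟩, ⟨ha, hau⟩, inter_subset_left⟩
    obtain ⟨C, hCB, hCf, hCu⟩ := hX _ hbase
    exact ⟨C, fun W hW => hCB hW, hCf, hCu⟩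
  choose C hC hCf hCu using h1
  set N : ℕ → Set (Set X) := fun n => {O | IsOpen O ∧ {i : C n | ((i : Set X) ∩ O).Nonempty}.Finite} with hN
  obtain ⟨A, hA, hAD⟩ := hD N (fun n s hs => hs.1) (by
    intro n
    refine eq_univ_of_univ_subset fun x _ => ?_
    obtain ⟨t, ht, htf⟩ := hCf n x
    obtain ⟨O, hOt, hO, hxO⟩ := mem_nhds_iff.1 ht
    refine ⟨O, ⟨hO, htf.subset ?_⟩, hxO⟩
    rintro i ⟨y, hy, hyO⟩
    exact ⟨y, hy, hOt hyO⟩)
  have hch : ∀ n, ∀ i : C n, ∃ u ∈ U n, (i : Set X) ⊆ u := fun n i => (hC n i i.2).2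
  choose w hwU hws using hch
  have hfin : ∀ n, {i : C n | ((i : Set X) ∩ ⋃₀ A n).Nonempty}.Finite := by
    intro n
    refine ((hA n).2.biUnion (t := fun O => {i : C n | ((i : Set X) ∩ O).Nonempty})
      fun O hO => ((hA n).1 hO).2).subset ?_
    rintro i ⟨y, hy, O, hO, hyO⟩
    exact mem_iUnion.2 ⟨O, mem_iUnion.2 ⟨hO, y, hy, hyO⟩⟩
  refine ⟨fun n => w n '' {i : C n | ((i : Set X) ∩ ⋃₀ A n).Nonempty}, fun n => ⟨?_, (hfin n).image _⟩, ?_⟩
  · rintro s ⟨i, -, rfl⟩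
    exact hwU n i
  · refine eq_univ_of_univ_subset fun x _ => ?_
    by_contra hcon
    have hx : ∀ n, ∃ i : C n, x ∈ (i : Set X) := by
      intro n
      have : x ∈ ⋃₀ C n := by rw [hCu n]; trivial
      obtain ⟨W, hW, hxW⟩ := this
      exact ⟨⟨W, hW⟩, hxW⟩
    choose i hi using hx
    have hGδ : IsGδ (⋂ n, ((i n : C n) : Set X)) := by
      refine IsGδ.iInter fun n => ?_
      exact (hC n _ (i n).2).1.isGδ
    obtain ⟨d, hdG, hdD⟩ := hG _ hGδ ⟨x, mem_iInter.2 hi⟩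
    obtain ⟨n, -, hn⟩ := hAD d hdD 0
    have hdi : d ∈ ((i n : C n) : Set X) := mem_iInter.1 hdG n
    apply hcon
    refine mem_iUnion.2 ⟨n, w n (i n), ⟨i n, ⟨d, hdi, hn⟩, rfl⟩, hws n (i n) (hi n)⟩

/-- The Hurewicz property implies the Lindelof property. -/
theorem isLindelof_of_hurewicz {X : Type} [TopologicalSpace X] {Y : Set X} (hY : HurewiczSpace Y) :
    IsLindelof Y := by
  classical
  rw [isLindelof_iff_countable_subcover]
  intro ι U hU hYU
  obtain ⟨A, hA, hA2⟩ := hY (fun _ => range fun i => ((↑) : Y → X) ⁻¹' U i)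
    (by
      rintro n s ⟨i, rfl⟩
      exact (hU i).preimage continuous_subtype_val)
    (by
      intro n
      refine eq_univ_of_univ_subset fun y _ => ?_
      obtain ⟨i, hi⟩ := mem_iUnion.1 (hYU y.2)
      exact ⟨_, ⟨i, rfl⟩, hi⟩)
  rcases isEmpty_or_nonempty ι with hemp | hne
  · refine ⟨∅, countable_empty, fun y hy => ?_⟩
    obtain ⟨i, hi⟩ := mem_iUnion.1 (hYU hy)
    exact hemp.elim i
  have h : ∀ n, ∀ s ∈ A n, ∃ i, ((↑) : Y → X) ⁻¹' U i = s := fun n s hs => (hA n).1 hs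
  choose! f hf using h
  refine ⟨⋃ n, f n '' A n, countable_iUnion fun n => ((hA n).2.image _).countable, ?_⟩
  intro y hy
  obtain ⟨k, hk⟩ := eventually_atTop.1 (hA2 ⟨y, hy⟩)
  obtain ⟨s, hs, hys⟩ := hk k le_rfl
  have h2 := hf k s hs
  rw [← h2] at hys
  exact mem_iUnion.2 ⟨f k s, mem_iUnion.2 ⟨mem_iUnion.2 ⟨k, s, hs, rfl⟩, hys⟩⟩

/-- Positive answer if every nonempty G_delta set meets the Hurewicz subspace or the closure of one
of few countable sets. -/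
theorem gdelta_case {X : Type} [TopologicalSpace X] (hX : TotallyParacompact X)
    (Y : Set X) (hY : Dense Y) (hYH : HurewiczSpace Y) (I : Type) (hI : #I < bNumber)
    (Z : I → Set X) (hZ : ∀ i, (Z i).Countable)
    (hG : ∀ G : Set X, IsGδ G → G.Nonempty → (G ∩ (Y ∪ ⋃ i, closure (Z i))).Nonempty) :
    MengerSpace X := by
  refine menger_of_gdelta hX _ (good_union (good_hurewicz hYH) ?_) hG
  refine good_few hX ?_ I Z hZ (bdd_of_lt I hI)
  intro U hU hc
  exact countable_subcover hX Y hY (isLindelof_of_hurewicz hYH) U hU hc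

/-- The bounding number is uncountable. -/
theorem aleph0_lt_bNumber : ℵ₀ < bNumber := by
  have hne : {c | ∃ F : Set (ℕ → ℕ), #F = c ∧
      ¬ ∃ g : ℕ → ℕ, ∀ f ∈ F, ∀ᶠ n in atTop, f n ≤ g n}.Nonempty := by
    refine ⟨_, Set.univ, rfl, ?_⟩
    rintro ⟨g, hg⟩
    obtain ⟨n, hn⟩ := (hg (fun n => g n + 1) (Set.mem_univ _)).exists
    omega
  obtain ⟨F, hF, hu⟩ := csInf_mem hne
  by_contra hcon
  have hF2 : #F = bNumber := hF
  have hc : F.Countable := by
    apply le_aleph0_iff_set_countable.1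
    rw [hF2]
    exact not_lt.1 hcon
  apply hu
  rcases F.eq_empty_or_nonempty with rfl | hFn
  · exact ⟨fun _ => 0, fun f hf => hf.elim⟩
  obtain ⟨f, hf⟩ := hc.exists_eq_range hFn
  refine ⟨fun n => (Finset.range (n + 1)).sup fun i => f i n, ?_⟩
  intro f' hf'
  rw [hf] at hf'
  obtain ⟨i, rfl⟩ := hf'
  filter_upwards [eventually_ge_atTop i] with n hn
  exact Finset.le_sup (f := fun i => f i n) (Finset.mem_range.2 (by omega))

end Pool.Agent.helper33.TM
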