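import Mathlib
import Pool.Agent.helper90.TP.Defs

set_option autoImplicit false

namespace Pool.Agent.helper33.TM

open Set Topology Filter
open Pool.Agent.helper90.TP (TotallyParacompact MengerSpace)

/-- Selection on a closed set in the closure of a sigma-compact set. -/
theorem sel {X : Type} [TopologicalSpace X] (hX : TotallyParacompact X) (K : ℕ → Set X)
    (hK : ∀ n, IsCompact (K n)) (F : Set X) (hF : IsClosed F) (hd : F ⊆ closure (⋃ n, K n))
    (U : ℕ → Set (Set X)) (hU : ∀ n, ∀ s ∈ U n, IsOpen s) (hc : ∀ n, ⋃₀ U n = univ) :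
    ∃ A : ℕ → Set (Set X), (∀ n, A n ⊆ U n ∧ (A n).Finite) ∧ F ⊆ ⋃ n, ⋃₀ A n := by
  classical
  set L : ℕ → Set X := fun n => ⋃ i ∈ Finset.range (n + 1), K i with hL
  have hLc : ∀ n, IsCompact (L n) := by
    intro n
    exact (Finset.range (n + 1)).isCompact_biUnion fun i _ => hK i
  set P : Set X → ℕ → Prop := fun W n => ∃ V : Set (Set X), V ⊆ U n ∧ V.Finite ∧ W ⊆ ⋃₀ V with hP
  set B : Set (Set X) := {W | IsOpen W ∧ (W ∩ F = ∅ ∨ ∃ n, P W n ∧ (W ∩ L n).Nonempty)} with hB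
  have hbase : TopologicalSpace.IsTopologicalBasis B := by
    refine TopologicalSpace.isTopologicalBasis_of_isOpen_of_nhds (fun u hu => hu.1) ?_
    intro a O ha hO
    by_cases haF : a ∈ F
    · have h1 := mem_closure_iff.1 (hd haF) O hO ha
      obtain ⟨y, hyO, hyK⟩ := h1
      obtain ⟨k, hk⟩ := mem_iUnion.1 hyK
      have h2 : a ∈ ⋃₀ U k := by rw [hc k]; trivial
      have h3 : y ∈ ⋃₀ U k := by rw [hc k]; trivial
      obtain ⟨U1, hU1, haU1⟩ := h2
      obtain ⟨U2, hU2, hyU2⟩ := h3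
      refine ⟨O ∩ (U1 ∪ U2), ⟨hO.inter ((hU k _ hU1).union (hU k _ hU2)), Or.inr ⟨k, ?_, ?_⟩⟩,
        ⟨ha, Or.inl haU1⟩, inter_subset_left⟩
      · refine ⟨{U1, U2}, ?_, by simp, ?_⟩
        · intro s hs
          rcases hs with rfl | hs
          · exact hU1
          · rw [mem_singleton_iff] at hs
            rw [hs]
            exact hU2
        · rintro z ⟨-, hz⟩
          rcases hz with hz | hz
          · exact ⟨U1, by simp, hz⟩
          · exact ⟨U2, by simp, hz⟩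
      · refine ⟨y, ⟨hyO, Or.inr hyU2⟩, ?_⟩
        simp only [hL, mem_iUnion]
        exact ⟨k, by simp, hk⟩
    · refine ⟨O ∩ Fᶜ, ⟨hO.inter hF.isOpen_compl, Or.inl ?_⟩, ⟨ha, haF⟩, inter_subset_left⟩
      ext z
      simp only [mem_inter_iff, mem_compl_iff, mem_empty_iff_false, iff_false]
      rintro ⟨⟨_, h1⟩, h2⟩
      exact h1 h2
  obtain ⟨C, hCB, hCf, hCu⟩ := hX B hbase
  have hfin : ∀ n, {i : C | ((i : Set X) ∩ L n).Nonempty}.Finite := fun n =>
    hCf.finite_nonempty_inter_compact (hLc n)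
  set v : Set X → ℕ → Set (Set X) := fun W n => if h : P W n then h.choose else ∅ with hv
  have hvs : ∀ W n, v W n ⊆ U n ∧ (v W n).Finite := by
    intro W n
    simp only [hv]
    split_ifs with h
    · exact ⟨h.choose_spec.1, h.choose_spec.2.1⟩
    · exact ⟨empty_subset _, finite_empty⟩
  have hvc : ∀ W n, P W n → W ⊆ ⋃₀ v W n := by
    intro W n h
    simp only [hv, h, dif_pos]
    exact h.choose_spec.2.2
  refine ⟨fun n => ⋃ i ∈ {i : C | ((i : Set X) ∩ L n).Nonempty}, v (i : Set X) n, fun n => ⟨?_, ?_⟩, ?_⟩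
  · intro s hs
    obtain ⟨i, hi⟩ := mem_iUnion.1 hs
    obtain ⟨_, hi2⟩ := mem_iUnion.1 hi
    exact (hvs _ _).1 hi2
  · exact (hfin n).biUnion fun i _ => (hvs _ _).2
  · intro x hx
    have hxu : x ∈ ⋃₀ C := by rw [hCu]; trivial
    obtain ⟨W, hW, hxW⟩ := hxu
    rcases (hCB hW).2 with h | ⟨n, hPn, hne⟩
    · exfalso
      have : x ∈ W ∩ F := ⟨hxW, hx⟩
      rw [h] at this
      exact this
    · refine mem_iUnion.2 ⟨n, ?_⟩
      obtain ⟨s, hs, hxs⟩ := hvc W n hPn hxW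
      refine ⟨s, ?_, hxs⟩
      refine mem_iUnion.2 ⟨⟨W, hW⟩, mem_iUnion.2 ⟨hne, hs⟩⟩

/-- A totally paracompact space with a dense sigma-compact subset is Menger. -/
theorem dense_sigmaCompact {X : Type} [TopologicalSpace X] (hX : TotallyParacompact X)
    (K : ℕ → Set X) (hK : ∀ n, IsCompact (K n)) (hd : Dense (⋃ n, K n)) : MengerSpace X := by
  intro U hU hc
  obtain ⟨A, hA, hF⟩ := sel hX K hK univ isClosed_univ (by rw [hd.closure_eq]) U hU hc
  exact ⟨A, hA, eq_univ_of_univ_subset hF⟩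

/-- A totally paracompact space with a dense Lindelof subspace is Lindelof. -/
theorem countable_subcover {X : Type} [TopologicalSpace X] (hX : TotallyParacompact X)
    (Y : Set X) (hY : Dense Y) (hYL : IsLindelof Y) (U : Set (Set X))
    (hU : ∀ s ∈ U, IsOpen s) (hc : ⋃₀ U = univ) :
    ∃ V : Set (Set X), V ⊆ U ∧ V.Countable ∧ ⋃₀ V = univ := by
  classical
  set B : Set (Set X) := {W | IsOpen W ∧ ∃ u ∈ U, W ⊆ u} with hB
  have hbase : TopologicalSpace.IsTopologicalBasis B := by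
    refine TopologicalSpace.isTopologicalBasis_of_isOpen_of_nhds (fun u hu => hu.1) ?_
    intro a O ha hO
    have h2 : a ∈ ⋃₀ U := by rw [hc]; trivial
    obtain ⟨u, hu, hau⟩ := h2
    exact ⟨O ∩ u, ⟨hO.inter (hU u hu), u, hu, inter_subset_right⟩, ⟨ha, hau⟩, inter_subset_left⟩
  obtain ⟨C, hCB, hCf, hCu⟩ := hX B hbase
  choose t ht htf using hCf
  obtain ⟨S, hSc, hSY, hScov⟩ := hYL.elim_nhds_subcover t fun y _ => ht y
  have hcount : {i : C | (i : Set X).Nonempty}.Countable := by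
    refine Countable.mono ?_ (hSc.biUnion fun y _ => (htf y).countable)
    intro i hi
    have hiO : IsOpen (i : Set X) := (hCB i.2).1
    obtain ⟨y, hyi, hyY⟩ := hY.inter_open_nonempty _ hiO hi
    have hy2 := hScov hyY
    obtain ⟨z, hz⟩ := mem_iUnion.1 hy2
    obtain ⟨hzS, hyz⟩ := mem_iUnion.1 hz
    refine mem_iUnion.2 ⟨z, mem_iUnion.2 ⟨hzS, ?_⟩⟩
    exact ⟨y, hyi, hyz⟩
  have hch : ∀ i : C, ∃ u ∈ U, (i : Set X) ⊆ u := fun i => (hCB i.2).2
  choose w hwU hws using hch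
  refine ⟨w '' {i : C | (i : Set X).Nonempty}, ?_, hcount.image _, ?_⟩
  · rintro s ⟨i, -, rfl⟩
    exact hwU i
  · refine eq_univ_of_univ_subset fun x _ => ?_
    have hxu : x ∈ ⋃₀ C := by rw [hCu]; trivial
    obtain ⟨W, hW, hxW⟩ := hxu
    exact ⟨w ⟨W, hW⟩, ⟨⟨W, hW⟩, ⟨x, hxW⟩, rfl⟩, hws ⟨W, hW⟩ hxW⟩

/-- Finite subsets of the range of a sequence have bounded indices. -/
theorem index_bound {X : Type} (e : ℕ → Set X) (A : Set (Set X)) (hA : A ⊆ range e)
    (hf : A.Finite) : ∃ b : ℕ, ∀ s ∈ A, ∃ k ≤ b, e k = s := by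
  classical
  have h : ∀ s ∈ A, ∃ k, e k = s := fun s hs => hA hs
  choose! f hf2 using h
  obtain ⟨b, hb⟩ := (hf.image f).bddAbove
  exact ⟨b, fun s hs => ⟨f s, hb ⟨s, hs, rfl⟩, hf2 s hs⟩⟩

/-- One bound for the closure of a countable set, infinitely often. -/
theorem one_bound {X : Type} [TopologicalSpace X] (hX : TotallyParacompact X)
    (e : ℕ → ℕ → Set X) (he : ∀ n k, IsOpen (e n k)) (hc : ∀ n, (⋃ k, e n k) = univ)
    (Z : Set X) (hZ : Z.Countable) :
    ∃ g : ℕ → ℕ, ∀ x ∈ closure Z, ∀ m, ∃ n ≥ m, ∃ k ≤ g n, x ∈ e n k := by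
  classical
  rcases Z.eq_empty_or_nonempty with rfl | hne
  · exact ⟨fun _ => 0, fun x hx => by simp at hx⟩
  obtain ⟨z, hz⟩ := hZ.exists_eq_range hne
  have h1 : ∀ m : ℕ, ∃ A : ℕ → Set (Set X), (∀ n, A n ⊆ range (e (n + m)) ∧ (A n).Finite) ∧
      closure Z ⊆ ⋃ n, ⋃₀ A n := by
    intro m
    refine sel hX (fun n => {z n}) (fun n => isCompact_singleton) (closure Z) isClosed_closure ?_
      (fun n => range (e (n + m))) ?_ ?_
    · rw [hz]
      have : (⋃ n, ({z n} : Set X)) = range z := by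
        ext x
        simp [eq_comm]
      rw [this]
    · rintro n s ⟨k, rfl⟩
      exact he _ _
    · intro n
      rw [sUnion_range]
      exact hc _
  choose A hA hcov using h1
  have h2 : ∀ m n : ℕ, ∃ b : ℕ, ∀ s ∈ A m n, ∃ k ≤ b, e (n + m) k = s := fun m n =>
    index_bound _ _ (hA m n).1 (hA m n).2
  choose b hb using h2
  refine ⟨fun j => (Finset.range (j + 1)).sup fun m => b m (j - m), ?_⟩
  intro x hx m
  have hx2 := hcov m hx
  obtain ⟨n, hn⟩ := mem_iUnion.1 hx2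
  obtain ⟨s, hs, hxs⟩ := hn
  obtain ⟨k, hk, hks⟩ := hb m n s hs
  refine ⟨n + m, by omega, k, ?_, by rw [hks]; exact hxs⟩
  have h3 : b m (n + m - m) ≤ (Finset.range (n + m + 1)).sup fun m' => b m' (n + m - m') :=
    Finset.le_sup (f := fun m' => b m' (n + m - m')) (by simp)
  have h4 : n + m - m = n := by omega
  rw [h4] at h3
  exact hk.trans h3

/-- A totally paracompact space with a dense Lindelof subspace which is the union of few closures
of countable sets is Menger. -/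
theorem few_closures {X : Type} [TopologicalSpace X] (hX : TotallyParacompact X)
    (Y : Set X) (hY : Dense Y) (hYL : IsLindelof Y) (I : Type) (Z : I → Set X)
    (hZ : ∀ i, (Z i).Countable) (hcov : (⋃ i, closure (Z i)) = univ)
    (hb : ∀ F : I → ℕ → ℕ, ∃ g : ℕ → ℕ, ∀ i, ∀ᶠ n in atTop, F i n ≤ g n) : MengerSpace X := by
  classical
  intro U hU hc
  rcases isEmpty_or_nonempty X with hemp | ⟨⟨x0⟩⟩
  · refine ⟨fun _ => ∅, fun n => ⟨empty_subset _, finite_empty⟩, ?_⟩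
    exact Subsingleton.elim _ _
  have h1 : ∀ n, ∃ V : Set (Set X), V ⊆ U n ∧ V.Countable ∧ ⋃₀ V = univ := fun n =>
    countable_subcover hX Y hY hYL (U n) (hU n) (hc n)
  choose V hVU hVc hVcov using h1
  have h2 : ∀ n, ∃ e : ℕ → Set X, V n = range e := by
    intro n
    refine (hVc n).exists_eq_range ?_
    have : x0 ∈ ⋃₀ V n := by rw [hVcov n]; trivial
    obtain ⟨s, hs, -⟩ := this
    exact ⟨s, hs⟩
  choose e he using h2
  have heU : ∀ n k, e n k ∈ U n := by
    intro n k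
    apply hVU n
    rw [he n]
    exact mem_range_self k
  have hec : ∀ n, (⋃ k, e n k) = univ := by
    intro n
    rw [← sUnion_range, ← he n]
    exact hVcov n
  have h3 : ∀ i, ∃ g : ℕ → ℕ, ∀ x ∈ closure (Z i), ∀ m, ∃ n ≥ m, ∃ k ≤ g n, x ∈ e n k := fun i =>
    one_bound hX e (fun n k => hU n _ (heU n k)) hec (Z i) (hZ i)
  choose F hF using h3
  obtain ⟨g, hg⟩ := hb F
  refine ⟨fun n => e n '' Set.Iic (g n), fun n => ⟨?_, (finite_Iic _).image _⟩, ?_⟩
  · rintro s ⟨k, -, rfl⟩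
    exact heU n k
  · refine eq_univ_of_univ_subset fun x _ => ?_
    have hx : x ∈ ⋃ i, closure (Z i) := by rw [hcov]; trivial
    obtain ⟨i, hi⟩ := mem_iUnion.1 hx
    obtain ⟨m, hm⟩ := eventually_atTop.1 (hg i)
    obtain ⟨n, hn, k, hk, hxk⟩ := hF i x hi m
    exact mem_iUnion.2 ⟨n, e n k, ⟨k, hk.trans (hm n hn), rfl⟩, hxk⟩

end Pool.Agent.helper33.TM
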